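import Pool.Agent.Helper89.OC.St1

/-!
# Module GLB of project OC (the fusion rules)
-/

set_option autoImplicit false

namespace Pool.Agent.Helper1.OC

open Matrix ComplexConjugate Pool.Agent.Helper94.YF Pool.Agent.Helper94.YG
  Pool.Agent.Helper89.OS Pool.Agent.Helper89.OC
open Pool.Agent.Helper13.OS (xe_so_ne xe_so_conj xe_uni')

section

variable {I : Type} [Fintype I] [DecidableEq I]

lemma glb_orth (Z : CentreRep I) (l m : I) :
    ∑ x, Z.rho Sm l x * conj (Z.rho Sm m x) = if l = m then 1 else 0 := by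
  have h := congrFun (congrFun (xe_uni' Z Sm) l) m
  rw [Matrix.mul_apply] at h
  simpa [Matrix.one_apply, Matrix.conjTranspose_apply] using h

lemma glb_coef (Z : CentreRep I) (a : I → ℂ) (m : I) :
    ∑ x, (∑ l, a l * Z.rho Sm l x) * conj (Z.rho Sm m x) = a m := by
  have h : ∀ x, (∑ l, a l * Z.rho Sm l x) * conj (Z.rho Sm m x) =
      ∑ l, a l * (Z.rho Sm l x * conj (Z.rho Sm m x)) := by
    intro x
    rw [Finset.sum_mul]
    exact Finset.sum_congr rfl fun l _ => by ring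
  simp_rw [h]
  rw [Finset.sum_comm]
  simp_rw [← Finset.mul_sum, glb_orth]
  simp

lemma glb_P (Z : CentreRep I) (i k x : I) :
    ∑ l, (Z.N i k l : ℂ) * Z.rho Sm l x =
      Z.rho Sm i x * Z.rho Sm k x / Z.rho Sm Z.o x := by
  rw [Z.verlinde, mul_div_cancel_left₀ _ (xe_so_ne Z x)]

lemma glb_pair (Z : CentreRep I) (a b : I → ℕ) :
    ∑ x, (∑ l, (a l : ℂ) * Z.rho Sm l x) * conj (∑ m, (b m : ℂ) * Z.rho Sm m x) =
      ∑ m, (a m : ℂ) * b m := by
  have h : ∀ x, (∑ l, (a l : ℂ) * Z.rho Sm l x) * conj (∑ m, (b m : ℂ) * Z.rho Sm m x) =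
      ∑ m, (b m : ℂ) * ((∑ l, (a l : ℂ) * Z.rho Sm l x) * conj (Z.rho Sm m x)) := by
    intro x
    rw [map_sum, Finset.mul_sum]
    refine Finset.sum_congr rfl fun m _ => ?_
    rw [map_mul, Complex.conj_natCast]
    ring
  simp_rw [h]
  rw [Finset.sum_comm]
  refine Finset.sum_congr rfl fun m _ => ?_
  rw [← Finset.mul_sum, glb_coef Z (fun l => (a l : ℂ))]
  ring

end

/-- **OC MODULE GLB** -/
theorem hGLB : StGLB := by
  intro I _ _ Z
  have hn : (Z.n : ℂ) ≠ 0 := Nat.cast_ne_zero.2 Z.n_pos.ne'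
  refine ⟨?_, ?_, ?_⟩
  · intro i j
    have h := glb_coef Z.toCentreRep (fun l => (Z.N i (Z.st j) l : ℂ)) Z.o
    have h1 : ∑ x, (∑ l, (Z.N i (Z.st j) l : ℂ) * Z.rho Sm l x) * conj (Z.rho Sm Z.o x) =
        if i = j then 1 else 0 := by
      rw [← glb_orth Z.toCentreRep i j]
      refine Finset.sum_congr rfl fun x _ => ?_
      rw [glb_P, xe_so_conj, Z.s_dual, div_mul_cancel₀ _ (xe_so_ne Z.toCentreRep x)]
    rw [h1] at h
    have h2 : ((Z.N i (Z.st j) Z.o : ℕ) : ℂ) = ((if i = j then 1 else 0 : ℕ) : ℂ) := by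
      rw [← h]
      split_ifs <;> simp
    exact_mod_cast h2
  · intro i j
    have hS : ∀ k, Z.rho Sm k Z.o = (Z.d k : ℂ) / Z.n := by
      intro k
      rw [Z.s_symm, Z.s_o]
    have h := Z.verlinde i j Z.o
    simp_rw [hS] at h
    rw [Z.d_o] at h
    have h1 : ∑ k, (Z.N i j k : ℂ) * ((Z.d k : ℂ) / Z.n) =
        (∑ k, (Z.N i j k : ℂ) * (Z.d k : ℂ)) / Z.n := by
      rw [Finset.sum_div]
      exact Finset.sum_congr rfl fun k _ => by ring
    rw [h1] at h
    field_simp at h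
    have h2 : (((Z.d i * Z.d j : ℕ)) : ℂ) = ((∑ l, Z.N i j l * Z.d l : ℕ) : ℂ) := by
      push_cast
      simpa using h
    exact_mod_cast h2
  · intro v w v' w'
    have key : ∑ l, (Z.N v w l : ℂ) * (Z.N v' w' l : ℂ) =
        ∑ l, (Z.N v (Z.st v') l : ℂ) * (Z.N w' (Z.st w) l : ℂ) := by
      rw [← glb_pair Z.toCentreRep (Z.N v w) (Z.N v' w'),
        ← glb_pair Z.toCentreRep (Z.N v (Z.st v')) (Z.N w' (Z.st w))]
      refine Finset.sum_congr rfl fun x _ => ?_
      rw [glb_P, glb_P, glb_P, glb_P, map_div₀, map_div₀, map_mul, map_mul, xe_so_conj,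
        Z.s_dual, Z.s_dual, Complex.conj_conj]
      ring
    exact_mod_cast key

end Pool.Agent.Helper1.OC
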